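import Mathlib
import Pool.Agent.V11219.BstMain
import Pool.Agent.N171.TG.Kl3

/-!
# The conjecture D for products of arbitrary varieties with varieties with a large image modulo two

Let `W` be a Weil cohomology theory on a class of smooth proper varieties over a field `k` of any
characteristic, with coefficients in a field which contains the 2-adic numbers; the example is the
2-adic cohomology of varieties over an algebraically closed field of characteristic different from two.
Let `Γ` be a group (for example the Galois group of a field of definition, or the fundamental group of
the base of a family) and `G` a class of varieties, closed under products, with an action of `Γ` on the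
cohomology which has the formal properties of a Galois action.

The varieties `X i` are finitely many varieties of odd dimension, with divisors which satisfy hard
Lefschetz and the standard conjectures of Lefschetz and of Hodge type (for instance hypersurfaces and
complete intersections of odd dimension, or curves), whose transcendental cohomology is in the middle
degree; it is spanned by a lattice over the 2-adic integers of rank `N i` which is stable under `Γ`.

The only other hypothesis on the `X i` is on the finite group of the action on the lattices MODULO TWO
(`LargeModTwo`): `N i ≥ 6`, and modulo two there are `N i + 1` vectors with mutual products one (in
the space of the even subsets of a set with `N i + 2` elements modulo the whole set they are the pairs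
`{0, j}`), such that each even permutation of these vectors is the action of an element of `Γ` which
acts trivially on the other lattices modulo two. It holds if the image modulo two contains the product
of the symplectic groups over the field with two elements.

The variety `Z` is arbitrary; for a stable lattice in its cohomology, of rank `d`, the group `Γ` does
not act by permutations of the vectors through its action on this lattice modulo two, or
`(N i + 1)! > 2 ^ (d ^ 2 + 1)` (`FreeBase`).

Let `T` be the product of `Z` with arbitrary powers of the `X i`. Then

1. homological and numerical equivalence coincide for `T` **if and only if** they coincide for `Z`; no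
   standard conjecture is assumed for `Z`;
2. if they coincide for `Z` (for instance if `Z` is a point, a curve or a surface), then they coincide
   for every variety `V` which is dominated by `T`, more precisely for which there is a morphism
   `g : T → V` such that `1` is the direct image under `g` of the class of a cycle.

Proof. A tower of commutators of elements which act by products of two transpositions on the vectors
gives an element of `Γ` whose square is trivial modulo two on the lattice of `X i`, is not a scalar
modulo four, and is trivial modulo four on the other lattices. The logarithms of the conjugates of its
powers generate a Lie algebra whose saturation is the symplectic Lie algebra over the 2-adic integers.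
These Lie algebras kill all forms on the lattices with values in the cohomology of `Z` which are
equivariant under a subgroup of finite index. By the first fundamental theorem the algebraic classes on
`T` are combinations of products of algebraic classes on the powers of the `X i` and of classes on `Z`.
By a theorem on the positivity of the form on classes generated by pairs of factors the algebraic
classes of the powers have an orthogonal rational basis; the components of an algebraic class in this
basis are algebraic classes on the other factor.
-/

universe u

namespace Pool.Agent.Results.MP_5f0950_ag.ImageModTwo

open Pool.Agent.H914 Pool.Agent.H281R3.HT Pool.Agent.TH125.Gal Pool.Agent.N171.TG.Kp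
  Pool.Agent.V11219.Bst

/-- **The conjecture D for varieties dominated by products with powers of varieties with a large image
modulo two.** -/
theorem result {k : Type u} [Field k] {𝒱 : VarClass k} {ops : CycleOps 𝒱}
    (W : WeilCohomology.{u, 0} ops) [Algebra ℚ_[2] W.K] {Γ : Type} [Group Γ] (κ : Γ →* ℤ_[2]ˣ)
    {ι : Type} [Finite ι] (G : Set (GVar W Γ)) (X : ι → GVar W Γ) (D : ∀ i, (X i).X.Cycles)
    (Z : GVar W Γ) {N : ι → ℕ} (b : ∀ i, Fin (N i) → W.H (X i).X)
    (J : ∀ i, Matrix (Fin (N i)) (Fin (N i)) ℤ_[2])
    (ρ : ∀ i, Γ →* Matrix (Fin (N i)) (Fin (N i)) ℤ_[2])
    (h : LatticeSystem κ G X D Z b J ρ)
    (e : ∀ i, Matrix (Fin (N i)) (Fin (N i + 1)) (ZMod 2)) (h2 : LargeModTwo J ρ e)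
    (hZ : FreeBase Z.act ρ e) (E : Z.X.Cycles) (L : List (ι × ℕ)) (hL : (L.map Prod.fst).Nodup) :
    (HomEqNum W (nodalTower X D Z E L).X ↔ HomEqNum W Z.X) ∧
      (HomEqNum W Z.X → ∀ (V : 𝒱.Obj) (g : (nodalTower X D Z E L).X ⟶ V), Dominant W g →
        HomEqNum W V) := by
  classical
  have := Fintype.ofFinite ι
  have h1 := (Pool.Agent.N171.TG.Kl.kSys_of_large h h2 hZ).homEqNum E L hL
  exact ⟨h1, fun hY V g hg => homEqNum_of_dominant hg (h1.2 hY)⟩

end Pool.Agent.Results.MP_5f0950_ag.ImageModTwo
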