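import Pool.Agent.N209.BD.Main

/-!
# Standard conjecture D depends only on the characteristic of the field

Let `k` be a perfect field, `K` any extension field of `k`, and fix an `ℓ`-adic (or Betti)
cohomology theory. It is shown that homological and numerical equivalence coincide for all smooth
projective varieties over `K` if and only if they coincide for all smooth projective varieties over
`k`. So Q1 for `ℚ` implies Q1 for all fields of characteristic zero, and Q1 for the field with `p`
elements implies Q1 for all fields of characteristic `p`. By the theorem of Smirnov (D implies B)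
it follows that D over the field with `p` elements implies the standard conjectures B, C and D over
all fields of characteristic `p`.

The theorem is stated for abstract tensor triangulated categories `C` (constructible motives over
`k`) and `C'` (over `K`), with classes `W` and `W'` of objects (Chow motives), with realisations `R`
and `R'` and the base change functor `b : C ⥤ C'`, and for each smooth connected `k`-variety `U i`
with a morphism from `Spec K` onto its generic point the category `D i` of motives over `U i`, with
the restriction `ρ i : D i ⥤ C'` to `Spec K`, the inverse image `φ i : C ⥤ D i`, its right adjoint,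
the direct image `π i`, the class `P i` of Chow motives over `U i`, and the morphisms
`τ i : π i φ i M ⟶ M` given by the restriction to a closed point of `U i` and the trace. What is used
of these data are theorems of Deligne and Bondarko (`IsFamily`), and continuity: morphisms of Chow
motives over `K` come from some `U i`.

The idea of the proof, from `k` to `K`: let `u : Y ⟶ 𝟙` be a morphism of motives over `K`, with
`Y` a Chow motive, which is not homologically trivial. It comes from a morphism `u₀ : X ⟶ 𝟙` over some
`U`, and by Deligne `π u₀ : π X ⟶ π 𝟙`, followed by `τ : π 𝟙 ⟶ 𝟙`, is a morphism of motives over `k`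
with non-zero realisation. The motive `π X` is mixed, of weights `≥ 0`, and by a weight argument
the composition with `M ⟶ π X`, for a Chow motive `M` (the motive of a smooth compactification),
is still not homologically trivial. By D over `k` there is a cycle `𝟙 ⟶ M` with non-zero
intersection number. The corresponding morphism `𝟙 ⟶ X` over `U` has a non-zero intersection number
with `u₀`.
-/

set_option autoImplicit false

open CategoryTheory Limits MonoidalCategory Pretriangulated Triangulated

universe w v u v' u'

namespace Pool.Agent.Results.MP_5f0950_ag.IndependenceOfBaseField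

open Pool.Agent.Y116.MT Pool.Agent.N209.CD Pool.Agent.N209.BD

/-- Homological and numerical equivalence coincide on Chow motives over the extension field `K` if
and only if they coincide on Chow motives over `k`. -/
theorem result
    -- the category `C` of motives over `k` and the class `W` of Chow motives, with weights
    {C : Type u} [Category.{v} C] [Preadditive C] [HasZeroObject C] [HasShift C ℤ]
    [∀ n : ℤ, (shiftFunctor C n).Additive] [Pretriangulated C] [IsTriangulated C]
    [MonoidalCategory C] [SymmetricCategory C] [TensorTriangulated C] [MonoidalPreadditive C]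
    [RightRigidCategory C] [Linear ℚ C]
    {W : ObjectProperty C} (hW : IsChowClass W)
    -- the category `C'` of motives over `K` and the class `W'` of Chow motives
    {C' : Type u'} [Category.{v'} C'] [Preadditive C'] [HasZeroObject C'] [HasShift C' ℤ]
    [∀ n : ℤ, (shiftFunctor C' n).Additive] [Pretriangulated C'] [IsTriangulated C']
    [MonoidalCategory C'] [SymmetricCategory C'] [TensorTriangulated C'] [MonoidalPreadditive C']
    [RightRigidCategory C'] [Linear ℚ C']
    {W' : ObjectProperty C'} (hW' : IsChowClass W')
    -- the realisations, and weights on the realisation of `C`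
    {E : Type w} [Field E] (R : Realisation C E) (R' : Realisation C' E)
    (hw : Nonempty (Weights R W))
    -- the base change functor
    (b : C ⥤ C') [b.Monoidal] (hb : Nonempty (R.H ≅ b ⋙ R'.H)) (hbW : ∀ M, W M → W' (b.obj M))
    -- the motives over the varieties `U i`
    {I : Type u} (D : I → Type u) [∀ i, Category.{v} (D i)] [∀ i, Preadditive (D i)]
    [∀ i, Linear ℚ (D i)] [∀ i, MonoidalCategory (D i)] (P : ∀ i, ObjectProperty (D i))
    (ρ : ∀ i, D i ⥤ C') [∀ i, (ρ i).Additive] [∀ i, (ρ i).Monoidal]
    (φ : ∀ i, C ⥤ D i) [∀ i, (φ i).Monoidal] (π : ∀ i, D i ⥤ C) [∀ i, (π i).Additive]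
    (adj : ∀ i, φ i ⊣ π i) (τ : ∀ i, φ i ⋙ π i ⟶ 𝟭 C) (κ : ∀ i, φ i ⋙ ρ i ≅ b)
    (hF : ∀ i, IsFamily R R' W (P i) (ρ i) (φ i) (π i) (adj i) (τ i))
    -- morphisms to the unit of Chow motives over `K` come from some `U i`
    (hcov : ∀ Y : C', W' Y → ∀ u : Y ⟶ 𝟙_ C', ∃ (i : I) (X : D i) (u₀ : X ⟶ 𝟙_ (D i))
      (j : (ρ i).obj X ≅ Y), P i X ∧
        j.hom ≫ u = (ρ i).map u₀ ≫ Functor.OplaxMonoidal.η (ρ i))
    -- cycles over `K` on Chow motives over `k` come from some `U i`
    (hcov' : ∀ M : C, W M → ∀ s : 𝟙_ C' ⟶ b.obj M, ∃ (i : I) (s₀ : 𝟙_ (D i) ⟶ (φ i).obj M),
      s = Functor.LaxMonoidal.ε (ρ i) ≫ (ρ i).map s₀ ≫ (κ i).hom.app M) :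
    HomNum R' W' ↔ HomNum R W := by
  obtain ⟨w⟩ := hw
  obtain ⟨hb⟩ := hb
  constructor
  · intro h
    exact homNum_of_homNumD hW.dual
      (descend (homNumD_of_homNum hW'.dual h) b hb hbW hF κ hcov')
  · intro h
    exact homNum_of_homNumD hW'.dual
      (ascend hW.neg w hW.unit (homNumD_of_homNum hW.dual h) hF hcov)

end Pool.Agent.Results.MP_5f0950_ag.IndependenceOfBaseField
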