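import Pool.Agent.N179.SD.Fin

/-!
# Conjecture D for the products of an arbitrary variety with members of an independent family

Let `F₀` be a finitely generated field with the separable closure `k`, of any characteristic, let `Γ`
be its Galois group, `W` the `ℓ`-adic cohomology of the varieties over `k` with coefficients in an
algebraic closure `K` of `ℚ_ℓ` (a field isomorphic to `ℂ`), and `χ` the inverse of the cyclotomic
character. The theorem is proved for an abstract Weil cohomology theory with an action of a group.

A class (or a vector of a representation) is *semi-invariant* if an open subgroup multiplies it by
a character. Let `V_i`, `i ∈ ι`, be any family of representations of `Γ` such that the
representations `End V_i` are semisimple, and which are pairwise independent: for `i ≠ j` every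
equivariant linear map `End V_i → End V_j` has its values in the span of the semi-invariant
vectors. For instance the representations `H^1(E_i)` for any family of elliptic curves over `F₀`
without complex multiplication (over a function field of positive characteristic: not isotrivial)
which are pairwise not isogenous over `k`; the `H^1` of pairwise not isogenous abelian varieties `A_i`
with `End A_i = ℤ` and of odd dimension; the transcendental lattices `T(X_i)` of K3 surfaces without
real or complex multiplication, pairwise not isomorphic up to a twist and of rank different from
`4`; and one can mix these families.

Let `P_a` be varieties with semisimple cohomology which is generated by `V_(i_a)`, for instance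
arbitrary powers of the elliptic curve, of the abelian variety or of the K3 surface, for which the
Tate conjecture is known (`Factor`: the semi-invariant classes are combinations of potential Tate
classes, the Tate conjecture and the conjecture `D` are true for `P_a`; so for all powers of the
elliptic curves).

**Theorem.** Let `Z` be an **arbitrary** smooth projective variety over `F₀`; nothing is assumed. There
is a finite set `E = E(Z)` of indices, with at most `(b - b') / 2` elements, where `b` is the sum of
the Betti numbers of `Z` and `b' ≥ 1` is the dimension of the span of the semi-invariant classes,
such that for all products `P_1 × ... × P_n` with pairwise different indices `i_a ∉ E`, and all
varieties `Z'` generated by the cohomology of `Z` (for instance `Z' = Z`, the powers of `Z`, and their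
products with varieties with potentially abelian cohomology):

**homological and numerical equivalence are the same on `P_1 × ... × P_n × Z'` if and only if they
are the same on `Z'`.**

So each variety for which Grothendieck's conjecture `D` is known gives infinitely many others: its
products with all powers of all members of the family with at most `(b - b') / 2` exceptions. The
exceptional members may be moved to the base, as `E(V_j) ⊆ {j}`: in every product of `Z` with powers
of members of the family all members but at most `(b - b') / 2` can be split off. In positive
characteristic, and for varieties `Z` for which the standard conjecture of Lefschetz type is not
known, it was not known that `D` for `Z` implies `D` for `Z × E_i^n`, for any elliptic curve `E_i`.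

The proof: by the Künneth formula for semi-invariant classes of
`MP_021685_ag.IndependenceFromSquares` the classes of the cycles on `P × Z'`, which are potential Tate
classes, have slices on `P` which are combinations of Tate classes, and so of classes of cycles; as
`D` is true for `P` they are sums of products of classes of cycles on `P` and on `Z'`.
-/

set_option autoImplicit false

universe u

namespace Pool.Agent.Results.MP_5f0950_ag.IndependentFactors

open Pool.Agent.H914 Pool.Agent.TH125.Gal Pool.Agent.N179.GR.S Pool.Agent.N179.SD

/-- **Independent families of varieties, an arbitrary variety, and the conjecture `D`.** -/
theorem result {k : Type u} [Field k] {𝒱 : VarClass k} {ops : CycleOps 𝒱}
    {W : WeilCohomology.{u, 0} ops} (hK : Nonempty (W.K ≃+* ℂ)) {Γ : Type} [Group Γ]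
    (χ : Chr W.K Γ) {ι : Type} {V : ι → GRep W.K Γ} (hV : Family V) :
    ∃ E : GRep W.K Γ → Set ι, NumSplitting χ V E :=
  final hK χ hV

end Pool.Agent.Results.MP_5f0950_ag.IndependentFactors
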